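import Pool.Agent.L7h26.Gag.Series

set_option autoImplicit false
set_option linter.unusedSectionVars false

open MeasureTheory ENNReal Module Set

namespace Pool.Agent.L7h26.Gag

variable {E : Type*} [NormedAddCommGroup E] [NormedSpace ℝ E] [FiniteDimensional ℝ E]
  [MeasurableSpace E] [BorelSpace E] (μ : Measure E) [μ.IsAddHaarMeasure]

/-- `∫ |f(x+h) - f(x)|^p dx`. -/
noncomputable def om (f : E → ℂ) (p : ℝ) (h : E) : ℝ≥0∞ := ∫⁻ x, ‖f (x + h) - f x‖ₑ ^ p ∂μ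

/-- kernel `|h|^{-a}` -/
noncomputable def ker (a : ℝ) (h : E) : ℝ≥0∞ := ENNReal.ofReal (‖h‖ ^ (-a))

omit [FiniteDimensional ℝ E] [NormedSpace ℝ E] in
theorem measurable_ker (a : ℝ) : Measurable (ker (E := E) a) := by
  unfold ker
  fun_prop

theorem measurable_om (f : E → ℂ) (hf : Measurable f) (p : ℝ) : Measurable (om μ f p) := by
  unfold om
  apply Measurable.lintegral_prod_right' (f := fun q : E × E => ‖f (q.2 + q.1) - f q.2‖ₑ ^ p)
  fun_prop

theorem om_zero (f : E → ℂ) (p : ℝ) (hp : 0 < p) : om μ f p 0 = 0 := by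
  simp [om, hp]

theorem om_two (f : E → ℂ) (hf : Measurable f) (p : ℝ) (hp : 1 ≤ p) (h : E) :
    om μ f p ((2 : ℝ) • h) ≤ 2 ^ p * om μ f p h := by
  have h1 : ∀ x, ‖f (x + (2 : ℝ) • h) - f x‖ₑ ^ p ≤
      2 ^ (p - 1) * (‖f (x + h + h) - f (x + h)‖ₑ ^ p + ‖f (x + h) - f x‖ₑ ^ p) := by
    intro x
    have e : x + (2 : ℝ) • h = x + h + h := by
      rw [two_smul, add_assoc]
    rw [e]
    calc ‖f (x + h + h) - f x‖ₑ ^ p
        = ‖(f (x + h + h) - f (x + h)) + (f (x + h) - f x)‖ₑ ^ p := by congr 2; ring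
      _ ≤ (‖f (x + h + h) - f (x + h)‖ₑ + ‖f (x + h) - f x‖ₑ) ^ p := by
          gcongr
          exact enorm_add_le _ _
      _ ≤ _ := ENNReal.rpow_add_le_mul_rpow_add_rpow _ _ hp
  calc om μ f p ((2 : ℝ) • h)
      ≤ ∫⁻ x, 2 ^ (p - 1) * (‖f (x + h + h) - f (x + h)‖ₑ ^ p + ‖f (x + h) - f x‖ₑ ^ p) ∂μ :=
        lintegral_mono h1
    _ = 2 ^ (p - 1) * (∫⁻ x, ‖f (x + h + h) - f (x + h)‖ₑ ^ p ∂μ + om μ f p h) := by
        rw [lintegral_const_mul _ (by fun_prop), lintegral_add_left (by fun_prop)]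
        rfl
    _ = 2 ^ (p - 1) * (om μ f p h + om μ f p h) := by
        congr 2
        exact lintegral_add_right_eq_self (μ := μ) (fun x => ‖f (x + h) - f x‖ₑ ^ p) h
    _ = 2 ^ p * om μ f p h := by
        rw [← two_mul, ← mul_assoc]
        congr 1
        have : (2 : ℝ≥0∞) ^ p = 2 ^ (p - 1) * 2 ^ (1 : ℝ) := by
          rw [← ENNReal.rpow_add _ _ (by norm_num) (by norm_num)]
          congr 1; ring
        rw [this, ENNReal.rpow_one]

theorem om_le (f : E → ℂ) (hf : Measurable f) (p : ℝ) (hp : 1 ≤ p) (h : E) :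
    om μ f p h ≤ 2 ^ p * ∫⁻ x, ‖f x‖ₑ ^ p ∂μ := by
  have h1 : ∀ x, ‖f (x + h) - f x‖ₑ ^ p ≤
      2 ^ (p - 1) * (‖f (x + h)‖ₑ ^ p + ‖f x‖ₑ ^ p) := by
    intro x
    calc ‖f (x + h) - f x‖ₑ ^ p
        ≤ (‖f (x + h)‖ₑ + ‖f x‖ₑ) ^ p := by
          gcongr
          exact enorm_sub_le
      _ ≤ _ := ENNReal.rpow_add_le_mul_rpow_add_rpow _ _ hp
  calc om μ f p h
      ≤ ∫⁻ x, 2 ^ (p - 1) * (‖f (x + h)‖ₑ ^ p + ‖f x‖ₑ ^ p) ∂μ := lintegral_mono h1
    _ = 2 ^ (p - 1) * (∫⁻ x, ‖f (x + h)‖ₑ ^ p ∂μ + ∫⁻ x, ‖f x‖ₑ ^ p ∂μ) := by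
        rw [lintegral_const_mul _ (by fun_prop), lintegral_add_left (by fun_prop)]
    _ = 2 ^ (p - 1) * (∫⁻ x, ‖f x‖ₑ ^ p ∂μ + ∫⁻ x, ‖f x‖ₑ ^ p ∂μ) := by
        congr 2
        exact lintegral_add_right_eq_self (μ := μ) (fun x => ‖f x‖ₑ ^ p) h
    _ = 2 ^ p * ∫⁻ x, ‖f x‖ₑ ^ p ∂μ := by
        rw [← two_mul, ← mul_assoc]
        congr 1
        have : (2 : ℝ≥0∞) ^ p = 2 ^ (p - 1) * 2 ^ (1 : ℝ) := by
          rw [← ENNReal.rpow_add _ _ (by norm_num) (by norm_num)]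
          congr 1; ring
        rw [this, ENNReal.rpow_one]

/-- scaling of a Haar lower integral -/
theorem lintegral_two_smul (G : E → ℝ≥0∞) (hG : Measurable G) :
    ∫⁻ h, G h ∂μ = 2 ^ (finrank ℝ E) * ∫⁻ h, G ((2 : ℝ) • h) ∂μ := by
  have h1 : ∫⁻ h, G ((2 : ℝ) • h) ∂μ = ∫⁻ h, G h ∂(Measure.map ((2 : ℝ) • ·) μ) := by
    rw [lintegral_map hG (by fun_prop)]
  rw [h1, Measure.map_addHaar_smul μ (by norm_num : (2 : ℝ) ≠ 0), lintegral_smul_measure,
    smul_eq_mul, ← mul_assoc]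
  have h2 : (2 : ℝ≥0∞) ^ finrank ℝ E * ENNReal.ofReal |((2 : ℝ) ^ finrank ℝ E)⁻¹| = 1 := by
    have : (2 : ℝ≥0∞) ^ finrank ℝ E = ENNReal.ofReal ((2 : ℝ) ^ finrank ℝ E) := by
      rw [ENNReal.ofReal_pow (by norm_num)]; norm_num
    rw [this, abs_of_pos (by positivity), ← ENNReal.ofReal_mul (by positivity),
      mul_inv_cancel₀ (by positivity), ENNReal.ofReal_one]
  rw [h2, one_mul]

/-- the dyadic shell `2^{-(j+1)} < |h| ≤ 2^{-j}` -/
def shell (E : Type*) [NormedAddCommGroup E] (j : ℕ) : Set E :=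
  {h | (1 / 2 : ℝ) ^ (j + 1) < ‖h‖ ∧ ‖h‖ ≤ (1 / 2 : ℝ) ^ j}

omit [FiniteDimensional ℝ E] [NormedSpace ℝ E] in
theorem measurableSet_shell (j : ℕ) : MeasurableSet (shell E j) := by
  unfold shell
  exact (measurableSet_lt measurable_const measurable_norm).inter
    (measurableSet_le measurable_norm measurable_const)

theorem two_smul_mem_shell (j : ℕ) (h : E) :
    (2 : ℝ) • h ∈ shell E j ↔ h ∈ shell E (j + 1) := by
  have e : ‖(2 : ℝ) • h‖ = 2 * ‖h‖ := by rw [norm_smul]; norm_num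
  unfold shell
  simp only [mem_ofPred_eq, e]
  constructor
  · rintro ⟨a, b⟩
    constructor
    · rw [pow_succ]; linarith
    · rw [pow_succ]; linarith
  · rintro ⟨a, b⟩
    rw [pow_succ] at a b
    constructor
    · linarith
    · linarith

/-- shell integrals -/
noncomputable def gs (f : E → ℂ) (p : ℝ) (j : ℕ) : ℝ≥0∞ :=
  ∫⁻ h in shell E j, om μ f p h * ker ((finrank ℝ E : ℝ) + p) h ∂μ

theorem gs_mono (f : E → ℂ) (hf : Measurable f) (p : ℝ) (hp : 1 ≤ p) : Monotone (gs μ f p) := by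
  refine monotone_nat_of_le_succ fun j => ?_
  set F : E → ℝ≥0∞ := fun h => om μ f p h * ker ((finrank ℝ E : ℝ) + p) h with hF
  have hFm : Measurable F := (measurable_om μ f hf p).mul (measurable_ker _)
  have e1 : gs μ f p j = ∫⁻ h, (shell E j).indicator F h ∂μ := by
    rw [lintegral_indicator (measurableSet_shell j)]; rfl
  have e2 : gs μ f p (j + 1) = ∫⁻ h, (shell E (j + 1)).indicator F h ∂μ := by
    rw [lintegral_indicator (measurableSet_shell _)]; rfl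
  rw [e1, e2, lintegral_two_smul μ _ (hFm.indicator (measurableSet_shell j)),
    ← lintegral_const_mul' _ _ (ENNReal.pow_ne_top (by norm_num))]
  refine lintegral_mono fun h => ?_
  by_cases hh : h ∈ shell E (j + 1)
  · have hh' := (two_smul_mem_shell j h).2 hh
    simp only [indicator_of_mem hh, indicator_of_mem hh', hF]
    have hk : (2 : ℝ≥0∞) ^ finrank ℝ E * (2 ^ p * ker ((finrank ℝ E : ℝ) + p) ((2 : ℝ) • h))
        = ker ((finrank ℝ E : ℝ) + p) h := by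
      unfold ker
      have e : ‖(2 : ℝ) • h‖ = 2 * ‖h‖ := by rw [norm_smul]; norm_num
      have a1 : (2 : ℝ≥0∞) ^ finrank ℝ E = ENNReal.ofReal ((2 : ℝ) ^ (finrank ℝ E : ℝ)) := by
        rw [Real.rpow_natCast, ENNReal.ofReal_pow (by norm_num)]; norm_num
      have a2 : (2 : ℝ≥0∞) ^ p = ENNReal.ofReal ((2 : ℝ) ^ p) := by
        rw [← ENNReal.ofReal_rpow_of_pos (by norm_num)]; norm_num
      rw [e, a1, a2, ← ENNReal.ofReal_mul (by positivity), ← ENNReal.ofReal_mul (by positivity),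
        Real.mul_rpow (by norm_num) (norm_nonneg _), ← mul_assoc, ← mul_assoc,
        ← Real.rpow_add (by norm_num), ← Real.rpow_add (by norm_num)]
      congr 1
      rw [add_neg_cancel, Real.rpow_zero, one_mul]
    calc (2 : ℝ≥0∞) ^ finrank ℝ E *
          (om μ f p ((2 : ℝ) • h) * ker ((finrank ℝ E : ℝ) + p) ((2 : ℝ) • h))
        ≤ (2 : ℝ≥0∞) ^ finrank ℝ E *
          ((2 ^ p * om μ f p h) * ker ((finrank ℝ E : ℝ) + p) ((2 : ℝ) • h)) := by
          gcongr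
          exact om_two μ f hf p hp h
      _ = om μ f p h *
          ((2 : ℝ≥0∞) ^ finrank ℝ E * (2 ^ p * ker ((finrank ℝ E : ℝ) + p) ((2 : ℝ) • h))) := by
          ring
      _ = _ := by rw [hk]
  · have hh' : ¬ (2 : ℝ) • h ∈ shell E j := fun h' => hh ((two_smul_mem_shell j h).1 h')
    simp [indicator_of_notMem hh']

end Pool.Agent.L7h26.Gag
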