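import Pool.Agent.L7h26.Gag.Near

set_option autoImplicit false
set_option linter.unusedSectionVars false

open MeasureTheory ENNReal Module Set

namespace Pool.Agent.L7h26.Gag

variable {E : Type*} [NormedAddCommGroup E] [NormedSpace ℝ E] [FiniteDimensional ℝ E]
  [MeasurableSpace E] [BorelSpace E] (μ : Measure E) [μ.IsAddHaarMeasure]

/-- outer shells -/
def oshell (E : Type*) [NormedAddCommGroup E] (k : ℕ) : Set E :=
  {h | (2 : ℝ) ^ k < ‖h‖ ∧ ‖h‖ ≤ (2 : ℝ) ^ (k + 1)}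

theorem compl_subset : (Metric.closedBall (0 : E) 1)ᶜ ⊆ ⋃ k, oshell E k := by
  intro h hh
  have h1 : 1 < ‖h‖ := by simpa using hh
  obtain ⟨n, hn1, hn2⟩ := exists_mem_Ioc_zpow (x := ‖h‖) (y := (2 : ℝ)) (by linarith) (by norm_num)
  have hn0 : 0 ≤ n := by
    by_contra hneg
    have : (2 : ℝ) ^ (n + 1) ≤ 1 := zpow_le_one_of_nonpos₀ (by norm_num) (by omega)
    linarith
  obtain ⟨k, rfl⟩ := Int.eq_ofNat_of_zero_le hn0
  rw [mem_iUnion]
  exact ⟨k, by exact_mod_cast hn1, by exact_mod_cast hn2⟩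

theorem far_ker (p s : ℝ) (hp : 0 < p) (hs : 0 < s) :
    ∫⁻ h in (Metric.closedBall (0 : E) 1)ᶜ, ker ((finrank ℝ E : ℝ) + s * p) h ∂μ ≤
      2 ^ finrank ℝ E * μ (Metric.closedBall (0 : E) 1) *
        (1 - ENNReal.ofReal ((1 / 2 : ℝ) ^ (p * s)))⁻¹ := by
  set n := finrank ℝ E with hn
  have hmeas : ∀ k, MeasurableSet (oshell E k) := fun k =>
    (measurableSet_lt measurable_const measurable_norm).inter
      (measurableSet_le measurable_norm measurable_const)
  have h1 : ∀ k, ∫⁻ h in oshell E k, ker ((n : ℝ) + s * p) h ∂μ ≤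
      2 ^ n * μ (Metric.closedBall (0 : E) 1) * ENNReal.ofReal ((1 / 2 : ℝ) ^ (p * s)) ^ k := by
    intro k
    have e1 : ∫⁻ h in oshell E k, ker ((n : ℝ) + s * p) h ∂μ ≤
        ∫⁻ h in oshell E k, ENNReal.ofReal (((2 : ℝ) ^ k) ^ (-((n : ℝ) + s * p))) ∂μ := by
      refine setLIntegral_mono' (hmeas k) fun h hh => ?_
      unfold ker
      apply ENNReal.ofReal_le_ofReal
      exact Real.rpow_le_rpow_of_nonpos (by positivity) hh.1.le (by
        have : 0 ≤ (n : ℝ) := by positivity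
        nlinarith [mul_pos hs hp])
    have e2 : μ (oshell E k) ≤ ENNReal.ofReal (((2 : ℝ) ^ (k + 1)) ^ n) *
        μ (Metric.closedBall (0 : E) 1) := by
      have : oshell E k ⊆ Metric.closedBall (0 : E) (2 ^ (k + 1)) := by
        intro h hh
        simpa using hh.2
      refine (measure_mono this).trans ?_
      rw [Measure.addHaar_closedBall' μ _ (by positivity)]
    refine e1.trans ?_
    rw [setLIntegral_const]
    calc ENNReal.ofReal (((2 : ℝ) ^ k) ^ (-((n : ℝ) + s * p))) * μ (oshell E k)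
        ≤ ENNReal.ofReal (((2 : ℝ) ^ k) ^ (-((n : ℝ) + s * p))) *
          (ENNReal.ofReal (((2 : ℝ) ^ (k + 1)) ^ n) * μ (Metric.closedBall (0 : E) 1)) := by
          gcongr
      _ = 2 ^ n * μ (Metric.closedBall (0 : E) 1) *
          ENNReal.ofReal ((1 / 2 : ℝ) ^ (p * s)) ^ k := by
          have a1 : (2 : ℝ≥0∞) ^ n = ENNReal.ofReal ((2 : ℝ) ^ n) := by
            rw [ENNReal.ofReal_pow (by norm_num)]; norm_num
          rw [a1, ← ENNReal.ofReal_pow (by positivity), ← mul_assoc,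
            ← ENNReal.ofReal_mul (by positivity), mul_right_comm,
            ← ENNReal.ofReal_mul (by positivity)]
          congr 2
          have b1 : ((2 : ℝ) ^ k) ^ (-((n : ℝ) + s * p)) =
              (((2 : ℝ) ^ k) ^ n)⁻¹ * ((1 / 2 : ℝ) ^ (p * s)) ^ k := by
            rw [neg_add, Real.rpow_add (by positivity), Real.rpow_neg (by positivity),
              Real.rpow_natCast]
            congr 1
            rw [← Real.rpow_natCast, ← Real.rpow_natCast, ← Real.rpow_mul (by norm_num),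
              ← Real.rpow_mul (by norm_num), one_div, Real.inv_rpow (by norm_num),
              ← Real.rpow_neg (by norm_num)]
            congr 1; ring
          rw [b1, pow_succ, mul_pow]
          field_simp
  calc ∫⁻ h in (Metric.closedBall (0 : E) 1)ᶜ, ker ((n : ℝ) + s * p) h ∂μ
      ≤ ∫⁻ h in ⋃ k, oshell E k, ker ((n : ℝ) + s * p) h ∂μ := lintegral_mono_set compl_subset
    _ ≤ ∑' k, ∫⁻ h in oshell E k, ker ((n : ℝ) + s * p) h ∂μ := lintegral_iUnion_le _ _
    _ ≤ ∑' k, 2 ^ n * μ (Metric.closedBall (0 : E) 1) *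
          ENNReal.ofReal ((1 / 2 : ℝ) ^ (p * s)) ^ k := ENNReal.tsum_le_tsum h1
    _ = _ := by rw [ENNReal.tsum_mul_left, ENNReal.tsum_geometric]

/-- constant of the far part -/
noncomputable def farC (p : ℝ) : ℝ≥0∞ :=
  2 ^ p * (2 ^ finrank ℝ E * μ (Metric.closedBall (0 : E) 1) *
    ENNReal.ofReal (p * (Real.log 2 * (1 / 2 : ℝ) ^ p))⁻¹)

theorem farC_ne_top (p : ℝ) : farC μ p ≠ ∞ := by
  unfold farC
  have h1 : μ (Metric.closedBall (0 : E) 1) ≠ ∞ := (measure_closedBall_lt_top).ne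
  refine ENNReal.mul_ne_top ?_ (ENNReal.mul_ne_top (ENNReal.mul_ne_top ?_ h1) ENNReal.ofReal_ne_top)
  · exact ENNReal.rpow_ne_top_of_ne_zero (by norm_num) (by norm_num)
  · exact ENNReal.pow_ne_top (by norm_num)

theorem far_le (f : E → ℂ) (hf : Measurable f) (p s : ℝ) (hp : 1 ≤ p) (hs : 0 < s) (hs1 : s < 1) :
    ENNReal.ofReal s * far μ f p s ≤ farC μ p * ∫⁻ x, ‖f x‖ₑ ^ p ∂μ := by
  have hp0 : 0 < p := by linarith
  have h1 : far μ f p s ≤ (2 ^ p * ∫⁻ x, ‖f x‖ₑ ^ p ∂μ) *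
      (2 ^ finrank ℝ E * μ (Metric.closedBall (0 : E) 1) *
        (1 - ENNReal.ofReal ((1 / 2 : ℝ) ^ (p * s)))⁻¹) := by
    unfold far
    calc ∫⁻ h in (Metric.closedBall (0 : E) 1)ᶜ,
          om μ f p h * ker ((finrank ℝ E : ℝ) + s * p) h ∂μ
        ≤ ∫⁻ h in (Metric.closedBall (0 : E) 1)ᶜ,
          (2 ^ p * ∫⁻ x, ‖f x‖ₑ ^ p ∂μ) * ker ((finrank ℝ E : ℝ) + s * p) h ∂μ := by
          refine lintegral_mono fun h => ?_
          gcongr
          exact om_le μ f hf p hp h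
      _ = (2 ^ p * ∫⁻ x, ‖f x‖ₑ ^ p ∂μ) *
          ∫⁻ h in (Metric.closedBall (0 : E) 1)ᶜ, ker ((finrank ℝ E : ℝ) + s * p) h ∂μ := by
          rw [lintegral_const_mul _ (measurable_ker _)]
      _ ≤ _ := by
          gcongr
          exact far_ker μ p s hp0 hs
  have h2 : ENNReal.ofReal s * (1 - ENNReal.ofReal ((1 / 2 : ℝ) ^ (p * s)))⁻¹ ≤
      ENNReal.ofReal (p * (Real.log 2 * (1 / 2 : ℝ) ^ p))⁻¹ := by
    have hlog : 0 < Real.log 2 := Real.log_pos (by norm_num)
    have h3 := one_sub_rpow_ge p s hp0 hs.le hs1.le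
    have h4 : 0 < 1 - (1 / 2 : ℝ) ^ (p * s) := by
      have : 0 < p * s * (Real.log 2 * (1 / 2 : ℝ) ^ p) := by positivity
      linarith
    have e : 1 - ENNReal.ofReal ((1 / 2 : ℝ) ^ (p * s)) =
        ENNReal.ofReal (1 - (1 / 2 : ℝ) ^ (p * s)) := by
      rw [ENNReal.ofReal_sub _ (by positivity), ENNReal.ofReal_one]
    rw [e, ← ENNReal.ofReal_inv_of_pos h4, ← ENNReal.ofReal_mul hs.le]
    apply ENNReal.ofReal_le_ofReal
    rw [← div_eq_mul_inv, div_le_iff₀ h4, inv_mul_eq_div, le_div_iff₀ (by positivity)]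
    linarith
  calc ENNReal.ofReal s * far μ f p s
      ≤ ENNReal.ofReal s * ((2 ^ p * ∫⁻ x, ‖f x‖ₑ ^ p ∂μ) *
      (2 ^ finrank ℝ E * μ (Metric.closedBall (0 : E) 1) *
        (1 - ENNReal.ofReal ((1 / 2 : ℝ) ^ (p * s)))⁻¹)) := by gcongr
    _ = 2 ^ p * (2 ^ finrank ℝ E * μ (Metric.closedBall (0 : E) 1) *
        (ENNReal.ofReal s * (1 - ENNReal.ofReal ((1 / 2 : ℝ) ^ (p * s)))⁻¹)) *
          ∫⁻ x, ‖f x‖ₑ ^ p ∂μ := by ring
    _ ≤ _ := by
        unfold farC
        gcongr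

theorem near_mono (f : E → ℂ) (p s t : ℝ) (hp : 0 < p) (hst : s ≤ t) :
    near μ f p s ≤ near μ f p t := by
  unfold near
  refine setLIntegral_mono' Metric.isClosed_closedBall.measurableSet fun h hh => ?_
  have hh' : ‖h‖ ≤ 1 := by simpa using hh
  by_cases h0 : h = 0
  · subst h0
    rw [om_zero μ f p hp]; simp
  · have hpos : 0 < ‖h‖ := norm_pos_iff.2 h0
    gcongr
    unfold ker
    apply ENNReal.ofReal_le_ofReal
    exact Real.rpow_le_rpow_of_exponent_ge hpos hh' (by nlinarith)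

/-- comparison of `p`-th powers -/
theorem core (f : E → ℂ) (hf : Measurable f) (p s t : ℝ) (hp : 1 ≤ p) (hs : 0 < s)
    (hst : s < t) (ht : t < 1) :
    ENNReal.ofReal (min s (1 - s)) * (near μ f p s + far μ f p s) ≤
      ENNReal.ofReal ((4 : ℝ) ^ p) * (ENNReal.ofReal (min t (1 - t)) *
        (near μ f p t + far μ f p t)) + farC μ p * ∫⁻ x, ‖f x‖ₑ ^ p ∂μ := by
  have hp0 : 0 < p := by linarith
  have h4 : (1 : ℝ) ≤ (4 : ℝ) ^ p := Real.one_le_rpow (by norm_num) hp0.le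
  have hfar : ENNReal.ofReal (min s (1 - s)) * far μ f p s ≤
      farC μ p * ∫⁻ x, ‖f x‖ₑ ^ p ∂μ := by
    refine le_trans ?_ (far_le μ f hf p s hp hs (hst.trans ht))
    gcongr
    exact min_le_left _ _
  have hnear : ENNReal.ofReal (min s (1 - s)) * near μ f p s ≤
      ENNReal.ofReal ((4 : ℝ) ^ p) * (ENNReal.ofReal (min t (1 - t)) * near μ f p t) := by
    rw [← mul_assoc, ← ENNReal.ofReal_mul (by positivity)]
    by_cases h : t ≤ 1 / 2
    · have e : min t (1 - t) = t := min_eq_left (by linarith)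
      rw [e]
      have a1 : ENNReal.ofReal (min s (1 - s)) ≤ ENNReal.ofReal ((4 : ℝ) ^ p * t) := by
        apply ENNReal.ofReal_le_ofReal
        calc min s (1 - s) ≤ s := min_le_left _ _
          _ ≤ 1 * t := by linarith
          _ ≤ (4 : ℝ) ^ p * t := by gcongr; linarith
      exact mul_le_mul' a1 (near_mono μ f p s t hp0 hst.le)
    · have e : min t (1 - t) = 1 - t := min_eq_right (by linarith)
      rw [e]
      refine le_trans ?_ (near_compare μ f hf p s t hp hs.le hst.le ht)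
      gcongr
      exact min_le_right _ _
  calc ENNReal.ofReal (min s (1 - s)) * (near μ f p s + far μ f p s)
      = ENNReal.ofReal (min s (1 - s)) * near μ f p s +
        ENNReal.ofReal (min s (1 - s)) * far μ f p s := by ring
    _ ≤ ENNReal.ofReal ((4 : ℝ) ^ p) * (ENNReal.ofReal (min t (1 - t)) * near μ f p t) +
        farC μ p * ∫⁻ x, ‖f x‖ₑ ^ p ∂μ := add_le_add hnear hfar
    _ ≤ _ := by
        gcongr
        exact le_self_add

/-- the double integral in polar form -/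
theorem double_eq (f : E → ℂ) (hf : Measurable f) (p s : ℝ) (hp : 0 < p) (hs : 0 < s) :
    ∫⁻ x, ∫⁻ y, ENNReal.ofReal (‖f x - f y‖ ^ p / ‖x - y‖ ^ ((finrank ℝ E : ℝ) + s * p)) ∂μ ∂μ
      = near μ f p s + far μ f p s := by
  set a : ℝ := (finrank ℝ E : ℝ) + s * p with ha
  have h1 : ∀ x, ∫⁻ y, ENNReal.ofReal (‖f x - f y‖ ^ p / ‖x - y‖ ^ a) ∂μ =
      ∫⁻ h, ‖f (x + h) - f x‖ₑ ^ p * ker a h ∂μ := by
    intro x
    rw [← lintegral_add_left_eq_self _ x]
    refine lintegral_congr fun h => ?_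
    have e1 : x - (x + h) = -h := by abel
    rw [e1, norm_neg, norm_sub_rev (f x)]
    unfold ker
    rw [Real.rpow_neg (norm_nonneg _), div_eq_mul_inv, ENNReal.ofReal_mul (by positivity),
      ← ENNReal.ofReal_rpow_of_nonneg (norm_nonneg _) hp.le, ofReal_norm]
  simp_rw [h1]
  rw [lintegral_lintegral_swap]
  · have h2 : ∀ h, ∫⁻ x, ‖f (x + h) - f x‖ₑ ^ p * ker a h ∂μ = om μ f p h * ker a h := by
      intro h
      rw [lintegral_mul_const _ (by fun_prop)]
      rfl
    simp_rw [h2]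
    unfold near far
    rw [lintegral_add_compl _ Metric.isClosed_closedBall.measurableSet]
  · apply Measurable.aemeasurable
    have := measurable_ker (E := E) a
    fun_prop

end Pool.Agent.L7h26.Gag
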