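import Pool.Agent.L7h26.Gag.Core

set_option autoImplicit false
set_option linter.unusedSectionVars false

open MeasureTheory ENNReal Module Set

namespace Pool.Agent.L7h26.Gag

variable {E : Type*} [NormedAddCommGroup E] [NormedSpace ℝ E] [FiniteDimensional ℝ E]
  [MeasurableSpace E] [BorelSpace E] (μ : Measure E) [μ.IsAddHaarMeasure]

/-- near part of the p-th power of the seminorm -/
noncomputable def near (f : E → ℂ) (p s : ℝ) : ℝ≥0∞ :=
  ∫⁻ h in Metric.closedBall (0 : E) 1, om μ f p h * ker ((finrank ℝ E : ℝ) + s * p) h ∂μ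

/-- far part of the p-th power of the seminorm -/
noncomputable def far (f : E → ℂ) (p s : ℝ) : ℝ≥0∞ :=
  ∫⁻ h in (Metric.closedBall (0 : E) 1)ᶜ, om μ f p h * ker ((finrank ℝ E : ℝ) + s * p) h ∂μ

theorem iUnion_shell : (⋃ j, shell E j) = Metric.closedBall (0 : E) 1 \ {0} := by
  ext h
  simp only [mem_iUnion, mem_sdiff, Metric.mem_closedBall, dist_zero_right, mem_singleton_iff]
  constructor
  · rintro ⟨j, h1, h2⟩
    constructor
    · exact h2.trans (pow_le_one₀ (by norm_num) (by norm_num))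
    · rintro rfl
      rw [norm_zero] at h1
      have : (0 : ℝ) < (1 / 2) ^ (j + 1) := by positivity
      linarith
  · rintro ⟨h1, h2⟩
    have hpos : 0 < ‖h‖ := norm_pos_iff.2 h2
    obtain ⟨n, hn1, hn2⟩ := exists_nat_pow_near_of_lt_one hpos h1 (by norm_num : (0 : ℝ) < 1 / 2)
      (by norm_num)
    exact ⟨n, hn1, hn2⟩

theorem disjoint_shell : Pairwise (Function.onFun Disjoint (shell E)) := by
  have key : ∀ i j : ℕ, i < j → Disjoint (shell E i) (shell E j) := by
    intro i j hij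
    rw [Set.disjoint_left]
    rintro h ⟨h1, -⟩ ⟨-, h2⟩
    have : (1 / 2 : ℝ) ^ j ≤ (1 / 2) ^ (i + 1) :=
      pow_le_pow_of_le_one (by norm_num) (by norm_num) hij
    linarith
  intro i j hij
  rcases lt_or_gt_of_ne hij with h | h
  · exact key i j h
  · exact (key j i h).symm

theorem near_eq (f : E → ℂ) (p s : ℝ) (hp : 0 < p) :
    near μ f p s = ∑' j, ∫⁻ h in shell E j, om μ f p h * ker ((finrank ℝ E : ℝ) + s * p) h ∂μ := by
  rw [← lintegral_iUnion (fun j => measurableSet_shell j) disjoint_shell, iUnion_shell]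
  unfold near
  have hm : MeasurableSet (Metric.closedBall (0 : E) 1) := Metric.isClosed_closedBall.measurableSet
  rw [← lintegral_indicator hm, ← lintegral_indicator (hm.diff (measurableSet_singleton 0))]
  refine lintegral_congr fun h => ?_
  by_cases h0 : h = 0
  · subst h0
    simp [indicator, om_zero μ f p hp]
  · by_cases h1 : h ∈ Metric.closedBall (0 : E) 1
    · simp only [indicator, mem_sdiff, h1, mem_singleton_iff, h0]
      simp
    · simp only [indicator, mem_sdiff, h1, mem_singleton_iff, h0]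
      simp

/-- the ratio `2^{-p(1-s)}` -/
noncomputable def xr (p s : ℝ) : ℝ≥0∞ := ENNReal.ofReal ((1 / 2 : ℝ) ^ (p * (1 - s)))

theorem ker_split (p s : ℝ) (h : E) (hh : 0 < ‖h‖) :
    ker ((finrank ℝ E : ℝ) + s * p) h
      = ker ((finrank ℝ E : ℝ) + p) h * ENNReal.ofReal (‖h‖ ^ (p * (1 - s))) := by
  unfold ker
  rw [← ENNReal.ofReal_mul (by positivity), ← Real.rpow_add hh]
  congr 2
  ring

theorem xr_pow (p s : ℝ) (j : ℕ) :
    xr p s ^ j = ENNReal.ofReal (((1 / 2 : ℝ) ^ j) ^ (p * (1 - s))) := by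
  unfold xr
  rw [← ENNReal.ofReal_pow (by positivity)]
  congr 1
  rw [← Real.rpow_natCast, ← Real.rpow_natCast, ← Real.rpow_mul (by norm_num),
    ← Real.rpow_mul (by norm_num), mul_comm]

theorem near_le (f : E → ℂ) (p s : ℝ) (hp : 0 < p) (hs : s ≤ 1) :
    near μ f p s ≤ ∑' j, xr p s ^ j * gs μ f p j := by
  rw [near_eq μ f p s hp]
  refine ENNReal.tsum_le_tsum fun j => ?_
  rw [gs, ← lintegral_const_mul' _ _ (by rw [xr_pow]; exact ENNReal.ofReal_ne_top)]
  refine setLIntegral_mono' (measurableSet_shell j) fun h hh => ?_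
  have h0 : 0 < ‖h‖ := lt_trans (by positivity) hh.1
  rw [ker_split p s h h0, xr_pow]
  have : ENNReal.ofReal (‖h‖ ^ (p * (1 - s))) ≤ ENNReal.ofReal (((1 / 2 : ℝ) ^ j) ^ (p * (1 - s))) := by
    apply ENNReal.ofReal_le_ofReal
    exact Real.rpow_le_rpow h0.le hh.2 (by nlinarith)
  calc om μ f p h * (ker ((finrank ℝ E : ℝ) + p) h * ENNReal.ofReal (‖h‖ ^ (p * (1 - s))))
      ≤ om μ f p h * (ker ((finrank ℝ E : ℝ) + p) h *
          ENNReal.ofReal (((1 / 2 : ℝ) ^ j) ^ (p * (1 - s)))) := by gcongr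
    _ = _ := by ring

theorem le_near (f : E → ℂ) (p s : ℝ) (hp : 0 < p) (hs : s ≤ 1) :
    xr p s * ∑' j, xr p s ^ j * gs μ f p j ≤ near μ f p s := by
  rw [near_eq μ f p s hp, ← ENNReal.tsum_mul_left]
  refine ENNReal.tsum_le_tsum fun j => ?_
  rw [← mul_assoc, ← pow_succ', gs,
    ← lintegral_const_mul' _ _ (by rw [xr_pow]; exact ENNReal.ofReal_ne_top)]
  refine setLIntegral_mono' (measurableSet_shell j) fun h hh => ?_
  have h0 : 0 < ‖h‖ := lt_trans (by positivity) hh.1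
  rw [ker_split p s h h0, xr_pow]
  have : ENNReal.ofReal (((1 / 2 : ℝ) ^ (j + 1)) ^ (p * (1 - s))) ≤
      ENNReal.ofReal (‖h‖ ^ (p * (1 - s))) := by
    apply ENNReal.ofReal_le_ofReal
    exact Real.rpow_le_rpow (by positivity) hh.1.le (by nlinarith)
  calc ENNReal.ofReal (((1 / 2 : ℝ) ^ (j + 1)) ^ (p * (1 - s))) *
        (om μ f p h * ker ((finrank ℝ E : ℝ) + p) h)
      ≤ ENNReal.ofReal (‖h‖ ^ (p * (1 - s))) *
        (om μ f p h * ker ((finrank ℝ E : ℝ) + p) h) := by gcongr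
    _ = _ := by ring

/-- elementary: `u·(log 2·2^{-p}) ≤ 1 - 2^{-pa}` for `0 ≤ a ≤ 1`, with `u = p a`. -/
theorem one_sub_rpow_ge (p a : ℝ) (hp : 0 < p) (ha : 0 ≤ a) (ha1 : a ≤ 1) :
    (p * a) * (Real.log 2 * (1 / 2 : ℝ) ^ p) ≤ 1 - (1 / 2 : ℝ) ^ (p * a) := by
  set u := p * a with hu
  have hu0 : 0 ≤ u := by positivity
  have hup : u ≤ p := by nlinarith
  have e : (1 / 2 : ℝ) ^ u = Real.exp (-(u * Real.log 2)) := by
    rw [Real.rpow_def_of_pos (by norm_num), one_div, Real.log_inv]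
    congr 1; ring
  have h1 : u * Real.log 2 + 1 ≤ Real.exp (u * Real.log 2) := Real.add_one_le_exp _
  have h2 : (1 / 2 : ℝ) ^ p ≤ (1 / 2 : ℝ) ^ u :=
    Real.rpow_le_rpow_of_exponent_ge (by norm_num) (by norm_num) hup
  have h3 : (u * Real.log 2) * (1 / 2 : ℝ) ^ u ≤ 1 - (1 / 2 : ℝ) ^ u := by
    rw [e]
    have h4 : Real.exp (u * Real.log 2) * Real.exp (-(u * Real.log 2)) = 1 := by
      rw [← Real.exp_add]; simp
    nlinarith [Real.exp_pos (-(u * Real.log 2))]
  have hl : 0 ≤ Real.log 2 := Real.log_nonneg (by norm_num)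
  calc u * (Real.log 2 * (1 / 2 : ℝ) ^ p) ≤ u * (Real.log 2 * (1 / 2 : ℝ) ^ u) := by gcongr
    _ = (u * Real.log 2) * (1 / 2 : ℝ) ^ u := by ring
    _ ≤ _ := h3

theorem one_sub_rpow_le (p a : ℝ) :
    1 - (1 / 2 : ℝ) ^ (p * a) ≤ (p * a) * Real.log 2 := by
  have e : (1 / 2 : ℝ) ^ (p * a) = Real.exp (-(p * a * Real.log 2)) := by
    rw [Real.rpow_def_of_pos (by norm_num), one_div, Real.log_inv]
    congr 1; ring
  have := Real.add_one_le_exp (-(p * a * Real.log 2))
  rw [e]; linarith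

/-- the near parts: `(1-s) A_s ≤ 4^p (1-t) A_t` -/
theorem near_compare (f : E → ℂ) (hf : Measurable f) (p s t : ℝ) (hp : 1 ≤ p) (hs : 0 ≤ s)
    (hst : s ≤ t) (ht : t < 1) :
    ENNReal.ofReal (1 - s) * near μ f p s ≤
      ENNReal.ofReal ((4 : ℝ) ^ p * (1 - t)) * near μ f p t := by
  have hp0 : 0 < p := by linarith
  have hlog : 0 < Real.log 2 := Real.log_pos (by norm_num)
  set c : ℝ := Real.log 2 * (1 / 2 : ℝ) ^ p with hc
  have hc0 : 0 < c := by positivity
  -- ratios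
  have hxlt : ∀ r, r < 1 → (1 / 2 : ℝ) ^ (p * (1 - r)) < 1 := fun r hr =>
    Real.rpow_lt_one (by norm_num) (by norm_num) (by nlinarith)
  have hx1 : ∀ r, r < 1 → xr p r < 1 := by
    intro r hr
    unfold xr
    rw [← ENNReal.ofReal_one]
    exact (ENNReal.ofReal_lt_ofReal_iff (by norm_num)).2 (hxlt r hr)
  have hxs : ∀ r, 1 - xr p r = ENNReal.ofReal (1 - (1 / 2 : ℝ) ^ (p * (1 - r))) := by
    intro r
    unfold xr
    rw [ENNReal.ofReal_sub _ (by positivity), ENNReal.ofReal_one]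
  have hmono : xr p s ≤ xr p t := by
    unfold xr
    apply ENNReal.ofReal_le_ofReal
    exact Real.rpow_le_rpow_of_exponent_ge (by norm_num) (by norm_num) (by nlinarith)
  have key := tsum_geom_mono (gs μ f p) (gs_mono μ f hf p hp) (xr p s) (xr p t) hmono (hx1 t ht)
  set Ss := ∑' j, xr p s ^ j * gs μ f p j with hSs
  set St := ∑' j, xr p t ^ j * gs μ f p j with hSt
  -- step 1
  have h1 : ENNReal.ofReal (1 - s) * near μ f p s ≤
      ENNReal.ofReal (p * c)⁻¹ * ((1 - xr p s) * Ss) := by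
    have : ENNReal.ofReal (1 - s) ≤ ENNReal.ofReal (p * c)⁻¹ * (1 - xr p s) := by
      rw [hxs, ← ENNReal.ofReal_mul (by positivity)]
      apply ENNReal.ofReal_le_ofReal
      have := one_sub_rpow_ge p (1 - s) hp0 (by linarith) (by linarith)
      rw [← hc] at this
      rw [inv_mul_eq_div, le_div_iff₀ (by positivity)]
      linarith
    calc ENNReal.ofReal (1 - s) * near μ f p s
        ≤ (ENNReal.ofReal (p * c)⁻¹ * (1 - xr p s)) * Ss := by
          gcongr
          exact near_le μ f p s hp0 (by linarith)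
      _ = _ := by ring
  have h2 : (1 - xr p t) * St ≤ ENNReal.ofReal (p * Real.log 2 * (1 - t)) * St := by
    gcongr
    rw [hxs]
    apply ENNReal.ofReal_le_ofReal
    have := one_sub_rpow_le p (1 - t)
    linarith
  have h3 : St ≤ ENNReal.ofReal ((2 : ℝ) ^ p) * near μ f p t := by
    have h4 := le_near μ f p t hp0 ht.le
    rw [← hSt] at h4
    have h5 : 1 ≤ ENNReal.ofReal ((2 : ℝ) ^ p) * xr p t := by
      unfold xr
      rw [← ENNReal.ofReal_mul (by positivity), ← ENNReal.ofReal_one]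
      apply ENNReal.ofReal_le_ofReal
      have h6 : (1 / 2 : ℝ) ^ p ≤ (1 / 2 : ℝ) ^ (p * (1 - t)) :=
        Real.rpow_le_rpow_of_exponent_ge (by norm_num) (by norm_num) (by nlinarith)
      have h7 : (2 : ℝ) ^ p * (1 / 2 : ℝ) ^ p = 1 := by
        rw [← Real.mul_rpow (by norm_num) (by norm_num)]; norm_num
      calc (1 : ℝ) = (2 : ℝ) ^ p * (1 / 2 : ℝ) ^ p := h7.symm
        _ ≤ _ := by gcongr
    calc St = 1 * St := (one_mul _).symm
      _ ≤ (ENNReal.ofReal ((2 : ℝ) ^ p) * xr p t) * St := by gcongr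
      _ = ENNReal.ofReal ((2 : ℝ) ^ p) * (xr p t * St) := by ring
      _ ≤ _ := by gcongr
  calc ENNReal.ofReal (1 - s) * near μ f p s
      ≤ ENNReal.ofReal (p * c)⁻¹ * ((1 - xr p s) * Ss) := h1
    _ ≤ ENNReal.ofReal (p * c)⁻¹ * ((1 - xr p t) * St) := by gcongr
    _ ≤ ENNReal.ofReal (p * c)⁻¹ * (ENNReal.ofReal (p * Real.log 2 * (1 - t)) * St) := by gcongr
    _ ≤ ENNReal.ofReal (p * c)⁻¹ * (ENNReal.ofReal (p * Real.log 2 * (1 - t)) *
          (ENNReal.ofReal ((2 : ℝ) ^ p) * near μ f p t)) := by gcongr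
    _ = ENNReal.ofReal ((4 : ℝ) ^ p * (1 - t)) * near μ f p t := by
        rw [← mul_assoc, ← mul_assoc, ← ENNReal.ofReal_mul (by positivity),
          ← ENNReal.ofReal_mul (by
            have : 0 ≤ 1 - t := by linarith
            positivity)]
        congr 2
        have h7 : (2 : ℝ) ^ p * (1 / 2 : ℝ) ^ p = 1 := by
          rw [← Real.mul_rpow (by norm_num) (by norm_num)]; norm_num
        have h8 : (4 : ℝ) ^ p = (2 : ℝ) ^ p * (2 : ℝ) ^ p := by
          rw [← Real.mul_rpow (by norm_num) (by norm_num)]; norm_num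
        have h9 : (1 / 2 : ℝ) ^ p = ((2 : ℝ) ^ p)⁻¹ := eq_inv_of_mul_eq_one_right h7
        rw [h8, hc, h9]
        have h10 : (2 : ℝ) ^ p ≠ 0 := by positivity
        field_simp

end Pool.Agent.L7h26.Gag
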