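import Mathlib

set_option autoImplicit false

open ENNReal

namespace Pool.Agent.L7h26.Gag

/-- Shifted geometric sum in `[0,∞]`. -/
theorem tsum_ite_geom (x : ℝ≥0∞) (i : ℕ) :
    ∑' j : ℕ, (if i ≤ j then x ^ j else 0) = x ^ i * (1 - x)⁻¹ := by
  have h1 : ∑' k : ℕ, (fun j : ℕ => if i ≤ j then x ^ j else 0) (i + k)
      = ∑' j : ℕ, (if i ≤ j then x ^ j else 0) := by
    apply Function.Injective.tsum_eq (g := fun k : ℕ => i + k) (f := fun j : ℕ => if i ≤ j then x ^ j else 0)
    · intro a b hab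
      simpa using hab
    · intro j hj
      by_cases h : i ≤ j
      · exact ⟨j - i, by simp; omega⟩
      · simp [h] at hj
  rw [← h1]
  have h2 : ∀ k : ℕ, (fun j : ℕ => if i ≤ j then x ^ j else 0) (i + k) = x ^ i * x ^ k := by
    intro k
    simp [pow_add]
  simp_rw [h2]
  rw [ENNReal.tsum_mul_left, ENNReal.tsum_geometric]

/-- `(1-x) ∑ g_j x^j` rewritten through the increments of a monotone sequence. -/
theorem tsum_geom_eq (g : ℕ → ℝ≥0∞) (hg : Monotone g) :
    ∃ d : ℕ → ℝ≥0∞, ∀ x : ℝ≥0∞, x < 1 →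
      (1 - x) * ∑' j, x ^ j * g j = ∑' i, x ^ i * d i := by
  refine ⟨fun i => Nat.casesOn i (g 0) (fun k => g (k + 1) - g k), fun x hx => ?_⟩
  set d : ℕ → ℝ≥0∞ := fun i => Nat.casesOn i (g 0) (fun k => g (k + 1) - g k) with hd
  have hsum : ∀ j, g j = ∑ i ∈ Finset.range (j + 1), d i := by
    intro j
    induction j with
    | zero => simp [hd]
    | succ j ih =>
      rw [Finset.sum_range_succ, ← ih]
      exact (add_tsub_cancel_of_le (hg (Nat.le_succ j))).symm
  have hsum' : ∀ j, x ^ j * g j = ∑' i, (if i ≤ j then x ^ j else 0) * d i := by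
    intro j
    rw [tsum_eq_sum (s := Finset.range (j + 1))]
    · rw [hsum j, Finset.mul_sum]
      refine Finset.sum_congr rfl fun i hi => ?_
      have : i ≤ j := by
        have := Finset.mem_range.1 hi
        omega
      simp [this]
    · intro i hi
      have : ¬ i ≤ j := by
        intro h
        exact hi (Finset.mem_range.2 (by omega))
      simp [this]
  simp_rw [hsum']
  rw [ENNReal.tsum_comm]
  have h3 : ∀ i, ∑' j, (if i ≤ j then x ^ j else 0) * d i = (1 - x)⁻¹ * (x ^ i * d i) := by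
    intro i
    rw [ENNReal.tsum_mul_right, tsum_ite_geom]
    ring
  simp_rw [h3]
  rw [ENNReal.tsum_mul_left, ← mul_assoc, ENNReal.mul_inv_cancel, one_mul]
  · exact (tsub_pos_of_lt hx).ne'
  · exact (tsub_le_self.trans_lt ENNReal.one_lt_top).ne

/-- `x ↦ (1-x) ∑ g_j x^j` is nondecreasing on `[0,1)` for monotone `g`. -/
theorem tsum_geom_mono (g : ℕ → ℝ≥0∞) (hg : Monotone g) (x y : ℝ≥0∞) (hxy : x ≤ y)
    (hy : y < 1) :
    (1 - x) * ∑' j, x ^ j * g j ≤ (1 - y) * ∑' j, y ^ j * g j := by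
  obtain ⟨d, hd⟩ := tsum_geom_eq g hg
  rw [hd x (hxy.trans_lt hy), hd y hy]
  exact ENNReal.tsum_le_tsum fun i => by gcongr

end Pool.Agent.L7h26.Gag
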